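import Pool.Agent.helper57.MS.Spec2

set_option autoImplicit false

open Finset Pool.Agent.RRank Pool.Agent.helper26.IM

namespace Pool.Agent.helper57.MS

/-- every tensor has rank at most one for a family with the trivial partition -/
lemma QTP_one {d : ℕ} {R : Set (IndexPartition d)} (hR : ∃ P ∈ R, P.parts = {univ}) {K : Type}
    [Field K] {Q : Fin d → Type} (T : ((α : Fin d) → Q α) → K) : SumOf R T 1 := by
  obtain ⟨P, hP, hparts⟩ := hR
  refine SumOf.one (rankLEOne_iff.2 ⟨P, hP, fun _ => T, ?_, fun x => ?_⟩)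
  · intro I hI x y hxy
    rw [hparts, Finset.mem_singleton] at hI
    subst hI
    have h1 : x = y := funext fun α => hxy α (Finset.mem_coe.2 (Finset.mem_univ α))
    rw [h1]
  · rw [hparts, Finset.prod_singleton]

lemma QTP_zero {d : ℕ} {R : Set (IndexPartition d)} {K : Type} [Field K] {Q : Fin d → Type}
    {T : ((α : Fin d) → Q α) → K} (h : SumOf R T 0) (x : (α : Fin d) → Q α) : T x = 0 := by
  obtain ⟨t, -, ht⟩ := h
  rw [ht x, Finset.univ_eq_empty, Finset.sum_empty]

theorem QTP : QTP_stmt := by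
  intro d hd 𝓚 R hR l
  rcases Nat.lt_or_ge 1 l with hl | hl
  · refine ⟨2, fun K _ _ Q _ T hT => ?_⟩
    exact absurd (QTP_one hR T) (not_sumOf_of_le_rank hT (by norm_num))
  rcases Nat.eq_zero_or_pos l with h0 | h0
  · subst h0
    refine ⟨0, fun K _ _ Q _ T _ => ⟨fun _ => ∅, fun α => by rw [Finset.card_empty], ?_⟩⟩
    rw [Nat.cast_zero]
    exact bot_le
  have h1 : l = 1 := le_antisymm hl h0
  subst h1
  refine ⟨1, fun K _ _ Q _ T hT => ?_⟩
  obtain ⟨x, hx⟩ : ∃ x, T x ≠ 0 := by
    by_contra hcon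
    push Not at hcon
    have h2 : SumOf R T 0 := by
      have h3 : T = fun _ => 0 := funext hcon
      rw [h3]
      exact SumOf.zero
    exact not_sumOf_of_le_rank hT (by norm_num) h2
  refine ⟨fun α => {x α}, fun α => by rw [Finset.card_singleton], ?_⟩
  by_contra hcon
  rw [not_le] at hcon
  obtain ⟨r, hr, hs⟩ := exists_sumOf_of_rank_lt hcon
  have hr0 : r = 0 := by omega
  subst hr0
  exact hx (QTP_zero hs (fun α => ⟨x α, Finset.mem_singleton_self _⟩))

end Pool.Agent.helper57.MS
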