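import Pool.Agent.helper57.MS.Spec

set_option autoImplicit false

open Finset Pool.Agent.RRank Pool.Agent.helper26.IM

namespace Pool.Agent.helper57.MS

/-- a bound for all families of partitions at once -/
lemma TH1_unif (hTH1R : TH1R_stmt) (d l : ℕ) : ∃ G : ℕ, 0 < d → ∀ (R : Set (IndexPartition d))
    (K : Type) [Field K], (l.factorial : K) ≠ 0 → ∀ (Q : Fin d → Type)
    (T : ((α : Fin d) → Q α) → K), (G : ℕ∞) ≤ rank (cl R) T →
    ∃ X : (α : Fin d) → Finset (Q α), (∀ α, (X α).card ≤ l) ∧ (l : ℕ∞) ≤ rank R (minor T X) := by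
  classical
  by_cases hd : 0 < d
  · choose G hG using hTH1R d l hd
    refine ⟨∑ R : Set (IndexPartition d), G R, fun _ R K _ hK Q T hT => ?_⟩
    refine hG R K hK Q T (le_trans ?_ hT)
    have h1 : G R ≤ ∑ R : Set (IndexPartition d), G R :=
      Finset.single_le_sum (f := G) (fun _ _ => Nat.zero_le _) (Finset.mem_univ R)
    exact_mod_cast h1
  · exact ⟨0, fun h => absurd h hd⟩

theorem TH1 (hTH1R : TH1R_stmt) (hSRK : SRK_stmt) : TH1_stmt := by
  choose G hG using TH1_unif hTH1R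
  refine ⟨G, fun d l hd R K _ hK Q T => ⟨fun hT => hG d l hd R K hK Q T hT, fun hR hT => ?_⟩⟩
  refine hG d l hd R K hK Q T (hT.trans ?_)
  exact (hSRK K d Q R (cl R) hR T).2

end Pool.Agent.helper57.MS
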